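import Pool.Agent.H57.QX.Main
import Pool.Agent.H57.QX.Main9
import Pool.Agent.H57.QY.F3
import Pool.Agent.H57.QY.F9
import Pool.Agent.H57.QY.F27
import Pool.Agent.H57.QY.F81
import Pool.Agent.H29.QP.Product
import Pool.Agent.H44.QS.A1
import Pool.Agent.H44.QS.A2
import Pool.Agent.H44.QS.A3
import Pool.Agent.H44.QS.A4
import Pool.Agent.H44.QS.A5
import Pool.Agent.H44.QS.A6
import Pool.Agent.H44.QS.A7
import Pool.Agent.H44.QS.B1
import Pool.Agent.H44.QS.B2
import Pool.Agent.H44.QS.B3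
import Pool.Agent.H44.QS.N15

/-!
# `Q n = n` for `n = 6 m + 3`: the assembly

`Q (3 k) = 3 k` for all odd `k ≥ 5`, given `Q 21 = 21`.  The numbers `k` prime to `6` and the numbers `k` divisible by
`3` and not by `9` are done by the affine families (`q_large`, `q_large9`) and explicit squares; `n = 3 ^ e` is done by
affine families for `k` congruent to `3, 9, 27, 81` modulo `120`; the product construction `q_mul` does the rest.
-/

set_option autoImplicit false

namespace Pool.Agent.H57.QZ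

open Pool.Agent.H44.NQ Pool.Agent.H44.QS

lemma cop (q : ℕ) (h2 : q % 2 = 1) (h3 : q % 3 ≠ 0) : Nat.Coprime q 6 := by
  have a : Nat.Coprime 2 q := (Nat.Prime.coprime_iff_not_dvd Nat.prime_two).mpr (by omega)
  have b : Nat.Coprime 3 q := (Nat.Prime.coprime_iff_not_dvd Nat.prime_three).mpr (by omega)
  have c : Nat.Coprime (2 * 3) q := Nat.Coprime.mul_left a b
  exact c.symm

lemma pr {m q n : ℕ} (h : Q m = m) (hm : 1 ≤ m) (hq : Nat.Coprime q 6) (hn : n = m * q) : Q n = n := by
  rw [hn]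
  exact Pool.Agent.H29.QP.q_mul hm hq h

theorem p25 : Q (3 * 25) = 3 * 25 := pr q15 (q := 5) (by norm_num) (by decide) (by norm_num)
theorem p35 : Q (3 * 35) = 3 * 35 := pr q15 (q := 7) (by norm_num) (by decide) (by norm_num)
theorem p55 : Q (3 * 55) = 3 * 55 := pr q15 (q := 11) (by norm_num) (by decide) (by norm_num)
theorem p65 : Q (3 * 65) = 3 * 65 := pr q15 (q := 13) (by norm_num) (by decide) (by norm_num)
theorem p77 : Q (3 * 77) = 3 * 77 := pr q_11 (q := 7) (by norm_num) (by decide) (by norm_num)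
theorem p85 : Q (3 * 85) = 3 * 85 := pr q15 (q := 17) (by norm_num) (by decide) (by norm_num)
theorem p91 (h21 : Q 21 = 21) : Q (3 * 91) = 3 * 91 := pr h21 (q := 13) (by norm_num) (by decide) (by norm_num)
theorem p95 : Q (3 * 95) = 3 * 95 := pr q15 (q := 19) (by norm_num) (by decide) (by norm_num)
theorem p115 : Q (3 * 115) = 3 * 115 := pr q15 (q := 23) (by norm_num) (by decide) (by norm_num)
theorem p119 (h21 : Q 21 = 21) : Q (3 * 119) = 3 * 119 := pr h21 (q := 17) (by norm_num) (by decide) (by norm_num)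
theorem p121 : Q (3 * 121) = 3 * 121 := pr q_11 (q := 11) (by norm_num) (by decide) (by norm_num)
theorem p125 : Q (3 * 125) = 3 * 125 := pr q15 (q := 25) (by norm_num) (by decide) (by norm_num)
theorem p133 (h21 : Q 21 = 21) : Q (3 * 133) = 3 * 133 := pr h21 (q := 19) (by norm_num) (by decide) (by norm_num)

/-- the small `k` prime to `3` -/
theorem small_a (h21 : Q 21 = 21) (k : ℕ) (h5 : 5 ≤ k) (hk : k < 139) (h2 : k % 2 = 1) (h3 : k % 3 ≠ 0) :
    Q (3 * k) = 3 * k := by
  interval_cases k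
  all_goals first
    | (exfalso; omega)
    | exact q15
    | exact h21
    | exact q_11
    | exact q_13
    | exact q_17
    | exact q_19
    | exact q_23
    | exact p25
    | exact q_29
    | exact q_31
    | exact p35
    | exact q_37
    | exact q_41
    | exact q_43
    | exact q_47
    | exact q_49
    | exact q_53
    | exact p55
    | exact q_59
    | exact q_61
    | exact p65
    | exact q_67
    | exact q_71
    | exact q_73
    | exact p77
    | exact q_79
    | exact q_83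
    | exact p85
    | exact q_89
    | exact p91 h21
    | exact p95
    | exact q_97
    | exact q_101
    | exact q_103
    | exact q_107
    | exact q_109
    | exact q_113
    | exact p115
    | exact p119 h21
    | exact p121
    | exact p125
    | exact q_127
    | exact q_131
    | exact p133 h21
    | exact q_137

theorem p75 : Q (3 * 75) = 3 * 75 :=
  Pool.Agent.H57.QX.q_eq Pool.Agent.H57.QX.E21.ok (t := 1) (by decide) (by decide)
theorem p87 : Q (3 * 87) = 3 * 87 :=
  Pool.Agent.H57.QX.q_eq Pool.Agent.H57.QX.E33.ok (t := 1) (by decide) (by decide)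
theorem p93 : Q (3 * 93) = 3 * 93 :=
  Pool.Agent.H57.QX.q_eq Pool.Agent.H57.QX.E39.ok (t := 1) (by decide) (by decide)
theorem p105 : Q (3 * 105) = 3 * 105 :=
  Pool.Agent.H57.QX.q_eq Pool.Agent.H57.QX.E51.ok (t := 1) (by decide) (by decide)
theorem p129 : Q (3 * 129) = 3 * 129 :=
  Pool.Agent.H57.QX.q_eq Pool.Agent.H57.QX.E21.ok (t := 2) (by decide) (by decide)
theorem p141 : Q (3 * 141) = 3 * 141 :=
  Pool.Agent.H57.QX.q_eq Pool.Agent.H57.QX.E33.ok (t := 2) (by decide) (by decide)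
theorem p147 : Q (3 * 147) = 3 * 147 :=
  Pool.Agent.H57.QX.q_eq Pool.Agent.H57.QX.E39.ok (t := 2) (by decide) (by decide)
theorem p159 : Q (3 * 159) = 3 * 159 :=
  Pool.Agent.H57.QX.q_eq Pool.Agent.H57.QX.E51.ok (t := 2) (by decide) (by decide)
theorem p165 : Q (3 * 165) = 3 * 165 :=
  Pool.Agent.H57.QX.q_eq Pool.Agent.H57.QX.E3.ok (t := 3) (by decide) (by decide)
theorem p183 : Q (3 * 183) = 3 * 183 :=
  Pool.Agent.H57.QX.q_eq Pool.Agent.H57.QX.E21.ok (t := 3) (by decide) (by decide)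
theorem p195 : Q (3 * 195) = 3 * 195 :=
  Pool.Agent.H57.QX.q_eq Pool.Agent.H57.QX.E33.ok (t := 3) (by decide) (by decide)
theorem p201 : Q (3 * 201) = 3 * 201 :=
  Pool.Agent.H57.QX.q_eq Pool.Agent.H57.QX.E39.ok (t := 3) (by decide) (by decide)
theorem p213 : Q (3 * 213) = 3 * 213 :=
  Pool.Agent.H57.QX.q_eq Pool.Agent.H57.QX.E51.ok (t := 3) (by decide) (by decide)
theorem p219 : Q (3 * 219) = 3 * 219 :=
  Pool.Agent.H57.QX.q_eq Pool.Agent.H57.QX.E3.ok (t := 4) (by decide) (by decide)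
theorem p231 : Q (3 * 231) = 3 * 231 := pr q_21 (q := 11) (by norm_num) (by decide) (by norm_num)

/-- the small `k` divisible by `3` and not by `9` -/
theorem small_b (k : ℕ) (h5 : 15 ≤ k) (hk : k < 232) (h2 : k % 2 = 1) (h3 : k % 3 = 0) (h9 : k % 9 ≠ 0) :
    Q (3 * k) = 3 * k := by
  interval_cases k
  all_goals first
    | (exfalso; omega)
    | exact q_15
    | exact q_21
    | exact q_33
    | exact q_39
    | exact q_51
    | exact q_57
    | exact q_69
    | exact p75
    | exact p87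
    | exact p93
    | exact p105
    | exact q_111
    | exact q_123
    | exact p129
    | exact p141
    | exact p147
    | exact p159
    | exact p165
    | exact q_177
    | exact p183
    | exact p195
    | exact p201
    | exact p213
    | exact p219
    | exact p231

/-- the powers of `3` -/
theorem pow_mod (j : ℕ) : (3 ^ (4 * j + 1) % 120 = 3 ∧ 3 ^ (4 * j + 2) % 120 = 9) ∧
    3 ^ (4 * j + 3) % 120 = 27 ∧ 3 ^ (4 * j + 4) % 120 = 81 := by
  induction j with
  | zero => norm_num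
  | succ j ih =>
    obtain ⟨⟨h1, h2⟩, h3, h4⟩ := ih
    have e : ∀ a : ℕ, 3 ^ (4 * (j + 1) + a) = 81 * 3 ^ (4 * j + a) := by
      intro a
      have : 4 * (j + 1) + a = 4 + (4 * j + a) := by ring
      rw [this, pow_add]
      norm_num
    rw [e 1, e 2, e 3, e 4]
    omega

theorem q_large5 (k : ℕ) (hr : k % 120 = 3 ∨ k % 120 = 9 ∨ k % 120 = 27 ∨ k % 120 = 81)
    (h3 : k % 120 = 3 → 243 ≤ k) (h9 : k % 120 = 9 → 249 ≤ k) (h27 : k % 120 = 27 → 507 ≤ k)
    (h81 : k % 120 = 81 → 921 ≤ k) : Q (3 * k) = 3 * k := by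
  have hdiv := Nat.div_add_mod k 120
  rcases hr with hr | hr | hr | hr
  · have := h3 hr
    exact Pool.Agent.H57.QY.q_eq Pool.Agent.H57.QY.F3.ok (t := (k / 120 : ℕ)) (by show (2 : ℤ) ≤ _; omega)
      (by simp only [Pool.Agent.H57.QY.Ctx.n, Pool.Agent.H57.QY.F3.ctx, Pool.Agent.H57.QY.Aff.ev]; push_cast; omega)
  · have := h9 hr
    exact Pool.Agent.H57.QY.q_eq Pool.Agent.H57.QY.F9.ok (t := (k / 120 : ℕ)) (by show (2 : ℤ) ≤ _; omega)
      (by simp only [Pool.Agent.H57.QY.Ctx.n, Pool.Agent.H57.QY.F9.ctx, Pool.Agent.H57.QY.Aff.ev]; push_cast; omega)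
  · have := h27 hr
    exact Pool.Agent.H57.QY.q_eq Pool.Agent.H57.QY.F27.ok (t := (k / 120 : ℕ)) (by show (4 : ℤ) ≤ _; omega)
      (by simp only [Pool.Agent.H57.QY.Ctx.n, Pool.Agent.H57.QY.F27.ctx, Pool.Agent.H57.QY.Aff.ev]; push_cast; omega)
  · have := h81 hr
    exact Pool.Agent.H57.QY.q_eq Pool.Agent.H57.QY.F81.ok (t := (k / 120 : ℕ)) (by show (7 : ℤ) ≤ _; omega)
      (by simp only [Pool.Agent.H57.QY.Ctx.n, Pool.Agent.H57.QY.F81.ctx, Pool.Agent.H57.QY.Aff.ev]; push_cast; omega)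

/-- `n = 3 ^ e`, `e ≥ 3` -/
theorem q_pow (j : ℕ) (hj : 2 ≤ j) : Q (3 * 3 ^ j) = 3 * 3 ^ j := by
  rcases Nat.lt_or_ge j 5 with h | h
  · interval_cases j
    · exact q_9
    · exact q_27
    · exact q_81
  · have hbig : 3 ^ 5 ≤ 3 ^ j := Nat.pow_le_pow_right (by norm_num) h
    have h6 : 6 ≤ j → 3 ^ 6 ≤ 3 ^ j := fun h' => Nat.pow_le_pow_right (by norm_num) h'
    have h7 : 7 ≤ j → 3 ^ 7 ≤ 3 ^ j := fun h' => Nat.pow_le_pow_right (by norm_num) h'
    obtain ⟨i, hi⟩ : ∃ i, j = 4 * i + 1 ∨ j = 4 * i + 2 ∨ j = 4 * i + 3 ∨ j = 4 * i + 4 :=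
      ⟨(j - 1) / 4, by omega⟩
    obtain ⟨⟨p1, p2⟩, p3, p4⟩ := pow_mod i
    norm_num at hbig h6 h7
    rcases hi with hi | hi | hi | hi
    · rw [← hi] at p1
      exact q_large5 _ (Or.inl p1) (fun _ => hbig) (by omega) (by omega) (by omega)
    · rw [← hi] at p2
      have := h6 (by omega)
      exact q_large5 _ (Or.inr (Or.inl p2)) (by omega) (fun _ => by omega) (by omega) (by omega)
    · rw [← hi] at p3
      have := h6 (by omega)
      exact q_large5 _ (Or.inr (Or.inr (Or.inl p3))) (by omega) (by omega) (fun _ => by omega) (by omega)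
    · rw [← hi] at p4
      have := h7 (by omega)
      exact q_large5 _ (Or.inr (Or.inr (Or.inr p4))) (by omega) (by omega) (by omega) (fun _ => by omega)

/-- `Q (3 k) = 3 k` for all odd `k ≥ 5` -/
theorem q_odd (h21 : Q 21 = 21) (k : ℕ) (h5 : 5 ≤ k) (h2 : k % 2 = 1) : Q (3 * k) = 3 * k := by
  by_cases h3 : k % 3 = 0
  · by_cases h9 : k % 9 = 0
    · obtain ⟨j, q, hq, hk⟩ := Nat.exists_eq_pow_mul_and_not_dvd (n := k) (by omega) 3 (by norm_num)
      have hq3 : q % 3 ≠ 0 := fun h => hq (Nat.dvd_of_mod_eq_zero h)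
      have hq2 : q % 2 = 1 := by
        by_contra hcon
        have h0 : 2 ∣ q := by omega
        have h1 : 2 ∣ k := by rw [hk]; exact Dvd.dvd.mul_left h0 _
        omega
      have hj : 2 ≤ j := by
        by_contra hcon
        have : j = 0 ∨ j = 1 := by omega
        rcases this with rfl | rfl
        · rw [pow_zero, one_mul] at hk; omega
        · rw [pow_one] at hk
          have h0 : 9 ∣ 3 * q := by rw [← hk]; exact Nat.dvd_of_mod_eq_zero h9
          omega
      exact pr (q_pow j hj) (Nat.mul_pos (by norm_num) (pow_pos (by norm_num) j)) (cop q hq2 hq3) (by rw [hk]; ring)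
    · rcases Nat.lt_or_ge k 232 with h | h
      · exact small_b k (by omega) h h2 h3 h9
      · exact Pool.Agent.H57.QX.q_large9 k h2 h3 h9 h
  · rcases Nat.lt_or_ge k 139 with h | h
    · exact small_a h21 k h5 h h2 h3
    · exact Pool.Agent.H57.QX.q_large k h2 h3 h

/-- `Q n = n` for all `n = 6 m + 3 ≥ 15` -/
theorem q_all (h21 : Q 21 = 21) (m : ℕ) (hm : 2 ≤ m) : Q (6 * m + 3) = 6 * m + 3 := by
  have h := q_odd h21 (2 * m + 1) (by omega) (by omega)
  have e : 3 * (2 * m + 1) = 6 * m + 3 := by ring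
  rwa [e] at h

end Pool.Agent.H57.QZ
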